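import Pool.Agent.W5h93.EX.PairDefs
import Pool.Agent.W5h93.EX.Prime

/-!
# Biadditive invariants
-/

set_option autoImplicit false

open CategoryTheory AlgebraicGeometry Pool.Agent.Y116.UV Pool.Agent.W5h93.EV

namespace Pool.Agent.W5h93.EX

variable {k : Type} [Field k] {M : Type*} [AddCommGroup M] {η : Sch k → Sch k → ℤ → M}
  {Q : Sch k → Prop}

lemma ft_hyp (F : Form k) : FT True F.hyp := ft_aff True

theorem pair_of_forms [PerfectField k] (hη : IsBiadditive η) (hQ : IsClass Q) {n : ℕ}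
    (h : PairForms η (n + 2)) : PairZero η Q n := by
  have h1 : ∀ X : Sch k, FT True X → topologicalKrullDim X.left ≤ n →
      ∀ G : Form k, G.Small (n + 2) → ∀ c, η X G.hyp c = 0 := fun X hX hd G hG =>
    dim_of_forms (bnd_additive (hη.left G.hyp (ft_hyp G))) (fun F hF => h F G hF hG) X hX hd
  intro X Y hX hY hXd hYd
  exact dim_of_forms (bnd_additive (hη.right X (hQ.ft hX)))
    (fun G hG => h1 X (hQ.ft hX) hXd G hG) Y (hQ.ft hY) hYd

theorem forms_of_pair [PerfectField k] (hη : IsBiadditive η) (hQ : IsClass Q) {n : ℕ}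
    (hM : ModelsIn Q n) (h : PairZero η Q n) : PairForms η (n + 2) := by
  have h1 : ∀ F : Form k, F.Small (n + 2) → ∀ Y, Q Y → topologicalKrullDim Y.left ≤ n →
      ∀ c, η F.hyp Y c = 0 := fun F hF Y hY hYd =>
    (class_iff (bnd_additive (hη.left Y (hQ.ft hY))) hQ hM).mp
      (fun X hX hXd => h X Y hX hY hXd hYd) F hF
  intro F G hF hG
  exact (class_iff (bnd_additive (hη.right F.hyp (ft_hyp F))) hQ hM).mp
    (fun Y hY hYd => h1 F hF Y hY hYd) G hG

theorem pair_all_of_forms (hη : IsBiadditive η) (hQ : IsClass Q)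
    (h : ∀ F G : Form k, ∀ c, η F.hyp G.hyp c = 0) : ∀ X Y, Q X → Q Y → ∀ c, η X Y c = 0 := by
  have h1 : ∀ X : Sch k, FT True X → ∀ G : Form k, ∀ c, η X G.hyp c = 0 := fun X hX G =>
    universal (bnd_additive (hη.left G.hyp (ft_hyp G))).toUni (S := Set.univ) trivial trivial
      (fun a b c T _ => h ⟨a, b, c, T⟩ G) presents_univ X hX
  intro X Y hX hY
  exact universal (bnd_additive (hη.right X (hQ.ft hX))).toUni (S := Set.univ) trivial trivial
    (fun a b c T _ => h1 X (hQ.ft hX) ⟨a, b, c, T⟩) presents_univ Y (hQ.ft hY)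

theorem forms_of_pair_all [PerfectField k] (hη : IsBiadditive η) (hQ : IsClass Q)
    (hM : ∀ n, ModelsIn Q n) (h : ∀ X Y, Q X → Q Y → ∀ c, η X Y c = 0) :
    ∀ F G : Form k, ∀ c, η F.hyp G.hyp c = 0 := by
  have h1 : ∀ F : Form k, ∀ Y, Q Y → ∀ c, η F.hyp Y c = 0 := fun F Y hY =>
    (all_iff (bnd_additive (hη.left Y (hQ.ft hY))) hQ hM).mp (fun X hX => h X Y hX hY) F
  intro F G
  exact (all_iff (bnd_additive (hη.right F.hyp (ft_hyp F))) hQ hM).mp (fun Y hY => h1 F Y hY) G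

end Pool.Agent.W5h93.EX
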