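import Pool.Agent.W5h93.EX.Defs

/-!
# Central values: definitions
-/

set_option autoImplicit false

open CategoryTheory AlgebraicGeometry Pool.Agent.Y116.UV Pool.Agent.W5h93.EV

universe w

namespace Pool.Agent.W5h93.EX

/-- The objects in the conjecture of Beilinson, for schemes `X` over `ℚ` and integers `m`: the
`ℚ`-vector space `V X m = CH^m(X)⁰ ⊗ ℚ`, the L-function `L X m` of `H^(2m-1)(X)`, the determinant
`period X m` of the period matrix `Π` and the determinant `height X m` of the height pairing on
`V^m × V^(dim X + 1 - m)`. -/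
structure CentralData where
  /-- the homologically trivial cycles of codimension `m` with rational coefficients, modulo rational
  equivalence -/
  V : Sch ℚ → ℤ → ModuleCat.{w} ℚ
  /-- the L-function -/
  L : Sch ℚ → ℤ → ℂ → ℂ
  /-- the determinant of the period matrix -/
  period : Sch ℚ → ℤ → ℂˣ
  /-- the determinant of the height pairing -/
  height : Sch ℚ → ℤ → ℂˣ

/-- **The parts (iii) and (iv) of the conjecture for `X`**: for all `m ≥ 1` the order of the L-function of
`H^(2m-1)(X)` at `s = m` is the dimension of `CH^m(X)⁰ ⊗ ℚ`, and its leading coefficient at `s = m` is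
the product of the period determinant, the height determinant and a rational number `≠ 0`. -/
def CentralData.Beilinson (D : CentralData.{w}) (X : Sch ℚ) : Prop :=
  ∀ m : ℤ, 1 ≤ m →
    meromorphicOrderAt (D.L X m) m = ((Module.finrank ℚ (D.V X m) : ℤ) : WithTop ℤ) ∧
    ∃ q : ℚ, q ≠ 0 ∧
      meromorphicTrailingCoeffAt (D.L X m) m = q * (D.period X m * D.height X m : ℂˣ)

/-- The group `ℂˣ / ℚˣ`. -/
abbrev Ratio : Type := ℂˣ ⧸ (Units.map (algebraMap ℚ ℂ : ℚ →* ℂ)).range

/-- The L-function of `H^(2m-1)(X)` is meromorphic at `s = m`, `CH^m(X)⁰ ⊗ ℚ` is finite-dimensional,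
and `v ∈ ℤ × ℂˣ / ℚˣ` is the pair of the difference of the order at `s = m` and of the dimension of
`CH^m(X)⁰ ⊗ ℚ`, and of the quotient of the leading coefficient by the period determinant and the height
determinant. -/
structure CentralData.IsDefectAt (D : CentralData.{w}) (X : Sch ℚ) (m : ℤ)
    (v : ℤ × Additive Ratio) : Prop where
  meromorphic : MeromorphicAt (D.L X m) m
  finite : Module.Finite ℚ (D.V X m)
  order : meromorphicOrderAt (D.L X m) m = ((v.1 + Module.finrank ℚ (D.V X m) : ℤ) : WithTop ℤ)
  leading : ∃ u : ℂˣ,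
    meromorphicTrailingCoeffAt (D.L X m) m = (u * (D.period X m * D.height X m) : ℂˣ) ∧
    v.2 = Additive.ofMul (u : Ratio)

/-- `δ` is an additive invariant of the separated schemes of finite type over `ℚ`, with coefficients in
the group `ℤ × ℂˣ / ℚˣ`, such that for the varieties `X` of the class `Q` its coefficient at `m ≥ 1` is
the pair of the difference of the order of the L-function and of the dimension of `CH^m(X)⁰ ⊗ ℚ`, and of
the quotient of the leading coefficient by the two determinants. -/
structure CentralData.IsDefect (D : CentralData.{w}) (Q : Sch ℚ → Prop)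
    (δ : Sch ℚ → ℤ → ℤ × Additive Ratio) : Prop where
  additive : IsAdditive δ
  pos : ∀ X, Q X → ∀ m : ℤ, 1 ≤ m → D.IsDefectAt X m (δ X m)
  nonpos : ∀ X, Q X → ∀ m : ℤ, m ≤ 0 → δ X m = 0

/-- The vanishing of the invariant. -/
def Zero {k : Type} [Field k] {M : Type*} [AddCommGroup M] (δ : Sch k → ℤ → M) (X : Sch k) : Prop :=
  ∀ c, δ X c = 0

/-- `P` is true for the hypersurfaces `∑_{(i, j, k) ∈ H} x_i y_j z_k = 1` over `R` of all tripartite
hypergraphs `H`, that is, finite sets `H` of triples. -/
def ForGraphs (R : Type) [CommRing R] (P : Sch R → Prop) : Prop :=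
  ∀ (a b c : ℕ) (H : Finset (Fin a × Fin b × Fin c)), P (tripS R H)

end Pool.Agent.W5h93.EX
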