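import Pool.Agent.W5h93.EX.Central
import Pool.Agent.W5h93.EX.Rat

/-!
# Central values
-/

set_option autoImplicit false

open CategoryTheory AlgebraicGeometry Pool.Agent.Y116.UV Pool.Agent.W5h93.EV

universe w

namespace Pool.Agent.W5h93.EX

variable {D : CentralData.{w}} {Q : Sch ℚ → Prop} {δ : Sch ℚ → ℤ → ℤ × Additive Ratio}

lemma beilinson_iff (h : D.IsDefect Q δ) {X : Sch ℚ} (hX : Q X) : D.Beilinson X ↔ Zero δ X := by
  constructor
  · intro hB m
    rcases le_or_gt 1 m with hm | hm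
    · obtain ⟨h1, q, hq, h2⟩ := hB m hm
      obtain ⟨-, -, h3, u, h4, h5⟩ := h.pos X hX m hm
      rw [h3] at h1
      have h6 : (δ X m).1 + (Module.finrank ℚ (D.V X m) : ℤ) = Module.finrank ℚ (D.V X m) := by
        exact_mod_cast h1
      refine Prod.ext (by change (δ X m).1 = 0; omega) ?_
      change (δ X m).2 = 0
      rw [h5, ofMul_eq_zero, QuotientGroup.eq_one_iff]
      refine ⟨Units.mk0 q hq, ?_⟩
      ext
      rw [h4, Units.val_mul] at h2
      have h7 : ((D.period X m * D.height X m : ℂˣ) : ℂ) ≠ 0 := Units.ne_zero _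
      have h8 := mul_right_cancel₀ h7 h2
      change ((q : ℚ) : ℂ) = u
      exact h8.symm
    · exact h.nonpos X hX m (by omega)
  · intro hZ m hm
    obtain ⟨-, -, h3, u, h4, h5⟩ := h.pos X hX m hm
    have h0 := hZ m
    rw [h0] at h3 h5
    refine ⟨?_, ?_⟩
    · rw [h3]
      congr 1
      change (0 : ℤ) + _ = _
      rw [zero_add]
    · have h6 : Additive.ofMul (u : Ratio) = 0 := h5.symm
      rw [ofMul_eq_zero, QuotientGroup.eq_one_iff] at h6
      obtain ⟨q, rfl⟩ := h6
      refine ⟨q, q.ne_zero, ?_⟩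
      rw [h4, Units.val_mul]
      rfl

end Pool.Agent.W5h93.EX
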