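import Pool.Agent.W5h93.EX.GTCDefs
import Pool.Agent.W5h93.EX.Prime

/-!
# Coniveau
-/

set_option autoImplicit false

open CategoryTheory AlgebraicGeometry Pool.Agent.Y116.UV Pool.Agent.W5h93.EV

universe u v

namespace Pool.Agent.W5h93.EX

variable {k : Type} [Field k] {K : Type u} [Field K] {D : ConiveauData.{u, v} k K}
  {Q : Sch k → Prop}

theorem gtc_iff (hD : D.IsConiveau Q) {r : ℕ} {δ : Sch k → ℤ → ℤ} (hδ : D.IsDefect Q r δ)
    {X : Sch k} (hX : Q X) : D.GTC r X ↔ Vanish δ X := by
  constructor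
  · intro h c
    rcases lt_or_ge c 0 with hc | hc
    · exact hδ.neg X hX c hc
    · obtain ⟨m, rfl⟩ := Int.eq_ofNat_of_zero_le hc
      have h1 := hδ.value X hX m
      rw [h m, sub_self] at h1
      exact h1
  · intro h ν
    have h1 := hδ.value X hX ν
    rw [h ν] at h1
    have := hD.finite X hX (r + 2 * ν)
    exact Submodule.eq_of_le_of_finrank_eq (hD.le X hX _ _) (by omega)

/-- A number for the dimension. -/
lemma exists_dim {X : Type} [TopologicalSpace X] [Nonempty X] {n : ℕ}
    (h : topologicalKrullDim X ≤ n) : ∃ d : ℕ, topologicalKrullDim X = d ∧ d ≤ n := by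
  have hn : Nonempty (TopologicalSpace.IrreducibleCloseds X) :=
    ⟨⟨closure {Classical.arbitrary X}, isIrreducible_singleton.closure, isClosed_closure⟩⟩
  have h0 : (0 : WithBot ℕ∞) ≤ topologicalKrullDim X := Order.krullDim_nonneg
  generalize topologicalKrullDim X = x at h0 h
  induction x using WithBot.recBotCoe with
  | bot => exact absurd h0 (by decide)
  | coe e =>
    have h1 : e ≤ (n : ℕ∞) := WithBot.coe_le_coe.mp h
    obtain ⟨d, rfl⟩ := ENat.ne_top_iff_exists.mp (ne_top_of_le_ne_top (ENat.natCast_ne_top n) h1)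
    exact ⟨d, rfl, by exact_mod_cast h1⟩

/-- The generalized Tate conjecture in level `r` is true in dimension at most `r + 1`. -/
theorem gtc_low (hQ : IsClass Q) (hD : D.IsConiveau Q) (r : ℕ) : ForClass Q (D.GTC r) (r + 1) := by
  intro X hX hd ν
  have : IrreducibleSpace X.left := hQ.irreducible X hX
  obtain ⟨d, h1, h2⟩ := exists_dim hd
  have h3 : D.geo X (r + 2 * ν) ν = ⊤ := hD.top X hX d h1 _ _ (by omega)
  have h4 := hD.le X hX (r + 2 * ν) ν
  rw [h3] at h4 ⊢
  exact (top_le_iff.mp h4).symm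

end Pool.Agent.W5h93.EX
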