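import Pool.Agent.W5h93.EX.PrimeDefs

/-!
# Coniveau: definitions
-/

set_option autoImplicit false

open CategoryTheory AlgebraicGeometry Pool.Agent.Y116.UV Pool.Agent.W5h93.EV

universe u v

namespace Pool.Agent.W5h93.EX

/-- The cohomology groups `H^i(X)` of the schemes over `k`, vector spaces over `K = ℚ_ℓ`, with the
geometric coniveau filtration `N^ν H^i(X)` and the Galois coniveau filtration `N^ν_ℓ H^i(X)`. -/
structure ConiveauData (k : Type) [Field k] (K : Type u) [Field K] where
  /-- the cohomology groups -/
  H : Sch k → ℕ → ModuleCat.{v} K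
  /-- the geometric coniveau filtration: the classes which vanish outside of a closed subset of
  codimension at least `ν` -/
  geo : ∀ (X : Sch k) (i : ℕ), ℕ → Submodule K (H X i)
  /-- the Galois coniveau filtration: the span of the subrepresentations `V` with `V(ν)` effective of
  weight `i - 2ν` -/
  gal : ∀ (X : Sch k) (i : ℕ), ℕ → Submodule K (H X i)

variable {k : Type} [Field k] {K : Type u} [Field K]

/-- **The generalized Tate conjecture for `X`, in level `r = i - 2ν`.** -/
def ConiveauData.GTC (D : ConiveauData.{u, v} k K) (r : ℕ) (X : Sch k) : Prop :=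
  ∀ ν : ℕ, D.geo X (r + 2 * ν) ν = D.gal X (r + 2 * ν) ν

/-- For the varieties in the class `Q` the cohomology groups are finite-dimensional, the geometric
coniveau filtration is contained in the Galois coniveau filtration, and `N^ν H^i(X)` is the whole of
`H^i(X)` for `ν = 0` and for `i ≥ dim X + ν` (by hard Lefschetz). -/
structure ConiveauData.IsConiveau (D : ConiveauData.{u, v} k K) (Q : Sch k → Prop) : Prop where
  finite : ∀ X, Q X → ∀ i, Module.Finite K (D.H X i)
  le : ∀ X, Q X → ∀ i ν, D.geo X i ν ≤ D.gal X i ν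
  top : ∀ X, Q X → ∀ d : ℕ, topologicalKrullDim X.left = d → ∀ i ν, ν = 0 ∨ d + ν ≤ i →
    D.geo X i ν = ⊤

/-- `δ` is an additive invariant of the separated schemes of finite type over `k`. For the varieties
`X` of the class `Q` its coefficient at `ν ≥ 0` is the difference of the dimensions of
`N^ν_ℓ H^(r+2ν)(X)` and of `N^ν H^(r+2ν)(X)`, and its coefficients at `ν < 0` are zero. -/
structure ConiveauData.IsDefect (D : ConiveauData.{u, v} k K) (Q : Sch k → Prop) (r : ℕ)
    (δ : Sch k → ℤ → ℤ) : Prop where
  additive : IsAdditive δ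
  value : ∀ X, Q X → ∀ ν : ℕ, δ X ν =
    (Module.finrank K (D.gal X (r + 2 * ν) ν) : ℤ) - Module.finrank K (D.geo X (r + 2 * ν) ν)
  neg : ∀ X, Q X → ∀ c : ℤ, c < 0 → δ X c = 0

end Pool.Agent.W5h93.EX
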