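import Pool.Agent.W5h93.EX.MgDefs
import Pool.Agent.W5h93.EX.GTC

/-!
# Motivic Galois groups and Galois groups
-/

set_option autoImplicit false

open CategoryTheory AlgebraicGeometry Pool.Agent.Y116.UV Pool.Agent.W5h93.EV

universe u v

namespace Pool.Agent.W5h93.EX

section

variable {R S : Type u} [Ring R] [Ring S] (f : R →+* S)

/-- an `S`-submodule as an `R`-submodule -/
def resSub {M : Type v} [AddCommGroup M] [Module S M] (N : Submodule S M) :
    Submodule R (Res f M) where
  carrier := (N : Set M)
  add_mem' := N.add_mem
  zero_mem' := N.zero_mem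
  smul_mem' r x hx := N.smul_mem (f r) hx

lemma resSub_strictMono {M : Type v} [AddCommGroup M] [Module S M] :
    StrictMono (resSub f (M := M)) := by
  intro N N' h
  have h0 : resSub f N ≤ resSub f N' := by
    intro x hx
    have h2 : (show M from x) ∈ N := hx
    exact (h.le h2 : (show M from x) ∈ N')
  refine lt_of_le_of_ne h0 fun h1 => h.ne ?_
  ext x
  have h2 : (show Res f M from x) ∈ resSub f N ↔ (show Res f M from x) ∈ resSub f N' := by rw [h1]
  exact h2

lemma length_le (M : Type v) [AddCommGroup M] [Module S M] :
    Module.length S M ≤ Module.length R (Res f M) := by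
  have h1 := Order.krullDim_le_of_strictMono _ (resSub_strictMono f (M := M))
  rw [← Module.coe_length, ← Module.coe_length] at h1
  exact WithBot.coe_le_coe.mp h1

/-- an `S`-linear map as an `R`-linear map -/
def resHom {M N : Type v} [AddCommGroup M] [Module S M] [AddCommGroup N] [Module S N]
    (g : M →ₗ[S] N) : Res f M →ₗ[R] Res f N where
  toFun := g
  map_add' := g.map_add
  map_smul' r x := g.map_smul (f r) x

lemma length_res_add {M : Type v} [AddCommGroup M] [Module S M] (N : Submodule S M) :
    Module.length R (Res f M) = Module.length R (Res f N) + Module.length R (Res f (M ⧸ N)) :=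
  Module.length_eq_add_of_exact (resHom f N.subtype) (resHom f N.mkQ)
    (Submodule.subtype_injective N) (Submodule.mkQ_surjective N)
    (LinearMap.exact_subtype_mkQ N)

lemma length_add {M : Type v} [AddCommGroup M] [Module S M] (N : Submodule S M) :
    Module.length S M = Module.length S N + Module.length S (M ⧸ N) :=
  Module.length_eq_add_of_exact N.subtype N.mkQ (Submodule.subtype_injective N)
    (Submodule.mkQ_surjective N) (LinearMap.exact_subtype_mkQ N)

lemma length_res_congr {M N : Type v} [AddCommGroup M] [Module S M] [AddCommGroup N] [Module S N]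
    (e : M ≃ₗ[S] N) : Module.length R (Res f M) = Module.length R (Res f N) := by
  apply le_antisymm
  · exact Module.length_le_of_injective (resHom f e.toLinearMap) e.injective
  · exact Module.length_le_of_injective (resHom f e.symm.toLinearMap) e.symm.injective

lemma length_eq_of_simple (n : ℕ) : ∀ (M : Type v) [AddCommGroup M] [Module S M]
    [IsSemisimpleModule S M], Module.length S M = n →
    (∀ N : Submodule S M, IsSimpleModule S N → IsSimpleModule R (Res f N)) →
    Module.length R (Res f M) = n := by
  induction n with
  | zero =>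
    intro M _ _ _ h1 _
    have h2 : Subsingleton M := Module.length_eq_zero_iff.mp (by simpa using h1)
    have h3 : Subsingleton (Res f M) := h2
    rw [Nat.cast_zero]
    exact Module.length_eq_zero
  | succ n ih =>
    intro M _ _ _ h1 h2
    have hM : Nontrivial M := by
      rw [← Module.length_pos_iff (R := S), h1]
      exact_mod_cast Nat.succ_pos n
    obtain ⟨N, hN⟩ := IsSemisimpleModule.exists_simple_submodule S M
    have h3 : Module.length S N = 1 := Module.length_eq_one_iff.mpr hN
    have h4 := length_add N
    rw [h1, h3] at h4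
    have h5 : Module.length S (M ⧸ N) = n := by
      have h6 : Module.length S (M ⧸ N) ≠ ⊤ := by
        intro h7
        rw [h7, add_top] at h4
        exact absurd h4 (by exact_mod_cast ENat.natCast_ne_top (n + 1))
      obtain ⟨m, hm⟩ := ENat.ne_top_iff_exists.mp h6
      rw [← hm] at h4 ⊢
      have h7 : n + 1 = 1 + m := by exact_mod_cast h4
      have h8 : m = n := by omega
      rw [h8]
    obtain ⟨N', hN'⟩ := exists_isCompl N
    let e : (M ⧸ N) ≃ₗ[S] N' := N.quotientEquivOfIsCompl N' hN'
    have h6 : Module.length R (Res f (M ⧸ N)) = n := by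
      refine ih (M ⧸ N) h5 fun P hP => ?_
      -- transport to a submodule of `M`
      let g : (M ⧸ N) →ₗ[S] M := N'.subtype ∘ₗ e.toLinearMap
      have hg : Function.Injective g := (Submodule.subtype_injective N').comp e.injective
      let e' : P ≃ₗ[S] P.map g := P.equivMapOfInjective g hg
      have h7 : IsSimpleModule S (P.map g) := IsSimpleModule.congr e'.symm
      have h8 := h2 _ h7
      rw [← Module.length_eq_one_iff] at h8 ⊢
      rw [length_res_congr f e', h8]
    rw [length_res_add f N, h6]
    have h7 : Module.length R (Res f N) = 1 := Module.length_eq_one_iff.mpr (h2 N hN)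
    rw [h7]
    push_cast
    rw [add_comm]

/-- The lengths are the same if and only if the irreducible submodules remain irreducible. -/
theorem gap_nonneg_iff {M : Type v} [AddCommGroup M] [Module S M] [IsSemisimpleModule S M]
    (hM : IsFiniteLength R (Res f M)) : 0 ≤ lengthGap f M ∧
    (lengthGap f M = 0 ↔
      ∀ N : Submodule S M, IsSimpleModule S N → IsSimpleModule R (Res f N)) := by
  have hR : Module.length R (Res f M) ≠ ⊤ := Module.length_ne_top_iff.mpr hM
  have hle := length_le f M
  have hS : Module.length S M ≠ ⊤ := ne_top_of_le_ne_top hR hle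
  obtain ⟨a, ha⟩ := ENat.ne_top_iff_exists.mp hR
  obtain ⟨b, hb⟩ := ENat.ne_top_iff_exists.mp hS
  have h1 : lengthGap f M = (a : ℤ) - b := by
    rw [lengthGap, ← ha, ← hb, ENat.toNat_natCast, ENat.toNat_natCast]
  have h2 : b ≤ a := by
    rw [← ha, ← hb] at hle
    exact_mod_cast hle
  refine ⟨by rw [h1]; omega, ?_⟩
  rw [h1]
  constructor
  · intro h3 N hN
    have h4 : a = b := by omega
    have h5 := length_res_add f N
    have h6 := length_add N
    have h7 := length_le f (M ⧸ N)
    have h8 := length_le f N
    have h9 : Module.length S N = 1 := Module.length_eq_one_iff.mpr hN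
    rw [← Module.length_eq_one_iff]
    rw [h9] at h6 h8
    rw [← ha] at h5
    rw [← hb] at h6
    have hx : Module.length R (Res f N) ≠ ⊤ := by
      intro h; rw [h, top_add] at h5; exact ENat.natCast_ne_top a h5
    have hy : Module.length R (Res f (M ⧸ N)) ≠ ⊤ := by
      intro h; rw [h, add_top] at h5; exact ENat.natCast_ne_top a h5
    have hz : Module.length S (M ⧸ N) ≠ ⊤ := ne_top_of_le_ne_top hy h7
    obtain ⟨x, hx⟩ := ENat.ne_top_iff_exists.mp hx
    obtain ⟨y, hy⟩ := ENat.ne_top_iff_exists.mp hy
    obtain ⟨z, hz⟩ := ENat.ne_top_iff_exists.mp hz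
    rw [← hx] at h5 h8 ⊢
    rw [← hy] at h5 h7
    rw [← hz] at h6 h7
    have k1 : a = x + y := by exact_mod_cast h5
    have k2 : b = 1 + z := by exact_mod_cast h6
    have k3 : z ≤ y := by exact_mod_cast h7
    have k4 : 1 ≤ x := by exact_mod_cast h8
    have k5 : x = 1 := by omega
    rw [k5]
    rfl
  · intro h3
    have h4 := length_eq_of_simple f b M hb.symm h3
    rw [← ha] at h4
    have h5 : a = b := by exact_mod_cast h4
    omega

end

variable {k : Type} [Field k] {K : Type u} [Field K] {R S : Type u} [Ring R] [Ring S]
  {D : MotivicData.{u, v} k K R S} {Q : Sch k → Prop}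

theorem motivic_iff (hD : D.IsMotivic Q) {δ : Sch k → ℤ → ℤ × ℤ} (hδ : D.IsDefect Q δ)
    {X : Sch k} (hX : Q X) : D.Holds X ↔ Vanish δ X := by
  have hs : ∀ i, 0 ≤ lengthGap D.f (D.H X i) ∧ (lengthGap D.f (D.H X i) = 0 ↔
      ∀ N : Submodule S (D.H X i), IsSimpleModule S N → IsSimpleModule R (Res D.f N)) := by
    intro i
    have := hD.semisimple X hX i
    exact gap_nonneg_iff D.f (hD.finite X hX i)
  constructor
  · intro h c
    rcases lt_or_ge c 0 with hc | hc
    · exact hδ.neg X hX c hc
    · obtain ⟨m, rfl⟩ := Int.eq_ofNat_of_zero_le hc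
      have h1 := hδ.value X hX m
      rw [(hs _).2.mpr (h.simple _), (hs _).2.mpr (h.simple _), h.classes m, sub_self] at h1
      exact h1
  · intro h
    refine ⟨fun i => ?_, fun c => ?_⟩
    · have h1 := hδ.value X hX (i / 2)
      rw [h] at h1
      have h2 : lengthGap D.f (D.H X (2 * (i / 2))) + lengthGap D.f (D.H X (2 * (i / 2) + 1)) = 0 :=
        (congrArg Prod.fst h1).symm
      have h3 := (hs (2 * (i / 2))).1
      have h4 := (hs (2 * (i / 2) + 1)).1
      rcases Nat.even_or_odd' i with ⟨c, rfl | rfl⟩
      · have h5 : 2 * c / 2 = c := by omega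
        rw [h5] at h2 h3 h4
        exact (hs (2 * c)).2.mp (by omega)
      · have h5 : (2 * c + 1) / 2 = c := by omega
        rw [h5] at h2 h3 h4
        exact (hs (2 * c + 1)).2.mp (by omega)
    · have h1 := hδ.value X hX c
      rw [h] at h1
      have h2 : (0 : ℤ) = (Module.finrank K (D.tate X c) : ℤ) - Module.finrank K (D.mot X c) :=
        congrArg Prod.snd h1
      have := hD.finite_classes X hX c
      exact Submodule.eq_of_le_of_finrank_eq (hD.le X hX c) (by omega)

end Pool.Agent.W5h93.EX
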