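import Pool.Agent.W5h93.EX.PrimeDefs

/-!
# Motivic Galois groups and Galois groups: definitions
-/

set_option autoImplicit false

open CategoryTheory AlgebraicGeometry Pool.Agent.Y116.UV Pool.Agent.W5h93.EV

universe u v

namespace Pool.Agent.W5h93.EX

/-- The cohomology of the schemes over `k` as a representation of the motivic Galois group `𝒢_k` and of
the Galois group `Γ_k`. Here `K = ℚ_ℓ`, `R = K[Γ_k]`, `S = K[𝒢_k(K)]`, and `f : R → S` is given by the
homomorphism `Γ_k → 𝒢_k(K)`. -/
structure MotivicData (k : Type) [Field k] (K : Type u) [Field K] (R S : Type u) [Ring R]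
    [Ring S] where
  /-- the homomorphism of the group algebras -/
  f : R →+* S
  /-- the cohomology groups `H^i(X)` -/
  H : Sch k → ℕ → ModuleCat.{v} S
  /-- the twisted groups `H^(2c)(X)(c)` -/
  V : Sch k → ℕ → ModuleCat.{v} K
  /-- the Tate classes, invariant under `Γ_k` -/
  tate : ∀ (X : Sch k) (c : ℕ), Submodule K (V X c)
  /-- the span of the motivated (or absolute Hodge) classes, that is, the invariants of `𝒢_k` -/
  mot : ∀ (X : Sch k) (c : ℕ), Submodule K (V X c)

/-- The `S`-module `M` as an `R`-module. -/
noncomputable abbrev Res {R S : Type u} [Ring R] [Ring S] (f : R →+* S) (M : Type v) [AddCommGroup M]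
    [Module S M] : ModuleCat.{v} R :=
  (ModuleCat.restrictScalars f).obj (ModuleCat.of S M)

variable {k : Type} [Field k] {K : Type u} [Field K] {R S : Type u} [Ring R] [Ring S]

/-- **The conjecture for `X`**: the irreducible subrepresentations of the motivic Galois group in the
cohomology of `X` remain irreducible for the Galois group, and the Tate classes are spanned by motivated
classes. -/
structure MotivicData.Holds (D : MotivicData.{u, v} k K R S) (X : Sch k) : Prop where
  simple : ∀ (i : ℕ) (N : Submodule S (D.H X i)), IsSimpleModule S N → IsSimpleModule R (Res D.f N)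
  classes : ∀ c, D.mot X c = D.tate X c

/-- The known properties for the varieties `X` of the class `Q`: the cohomology is a semisimple
representation of the motivic Galois group, all representations have finite length, and motivated classes
are Tate classes. -/
structure MotivicData.IsMotivic (D : MotivicData.{u, v} k K R S) (Q : Sch k → Prop) : Prop where
  semisimple : ∀ X, Q X → ∀ i, IsSemisimpleModule S (D.H X i)
  finite : ∀ X, Q X → ∀ i, IsFiniteLength R (Res D.f (D.H X i))
  le : ∀ X, Q X → ∀ c, D.mot X c ≤ D.tate X c
  finite_classes : ∀ X, Q X → ∀ c, Module.Finite K (D.V X c)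

/-- The length of `M` as an `R`-module minus the length of `M` as an `S`-module. -/
noncomputable def lengthGap (f : R →+* S) (M : Type v) [AddCommGroup M] [Module S M] : ℤ :=
  ((Module.length R (Res f M)).toNat : ℤ) - (Module.length S M).toNat

/-- `δ` is an additive invariant of the separated schemes of finite type over `k`, with coefficients in
`ℤ × ℤ`. For the varieties `X` of the class `Q` its coefficient at `c ≥ 0` is the pair of the difference
of the lengths of `H^(2c)(X) ⊕ H^(2c+1)(X)` as a representation of the Galois group and of the motivic
Galois group, and of the difference of the dimensions of the space of Tate classes in `H^(2c)(X)(c)`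
and of the space spanned by the motivated classes. -/
structure MotivicData.IsDefect (D : MotivicData.{u, v} k K R S) (Q : Sch k → Prop)
    (δ : Sch k → ℤ → ℤ × ℤ) : Prop where
  additive : IsAdditive δ
  value : ∀ X, Q X → ∀ c : ℕ, δ X c =
    (lengthGap D.f (D.H X (2 * c)) + lengthGap D.f (D.H X (2 * c + 1)),
      (Module.finrank K (D.tate X c) : ℤ) - Module.finrank K (D.mot X c))
  neg : ∀ X, Q X → ∀ c : ℤ, c < 0 → δ X c = 0

end Pool.Agent.W5h93.EX
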