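import Pool.Agent.W5h93.EX.Defs

/-!
# Ordinary places: definitions
-/

set_option autoImplicit false

open CategoryTheory AlgebraicGeometry Pool.Agent.Y116.UV Pool.Agent.W5h93.EV Filter

namespace Pool.Agent.W5h93.EX

variable {k : Type} [Field k] {ι : Type}

/-- For the schemes `X` over the number field `k`, the degrees `i` and the places `v` (an element of
`ι`): the slopes of the Newton polygon of `H^i(X)` at `v` and the Hodge-Tate weights of `H^i(X)`. -/
structure SlopeData (k : Type) [Field k] (ι : Type) where
  /-- the slopes of the Frobenius element at `v` on `H^i(X)` -/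
  slopes : Sch k → ℕ → ι → Multiset ℚ
  /-- the Hodge-Tate weights of `H^i(X)` -/
  weights : Sch k → ℕ → Multiset ℚ

/-- The place `v` is ordinary for `H^i(X)`. -/
def SlopeData.Ord (D : SlopeData k ι) (X : Sch k) (i : ℕ) (v : ι) : Prop :=
  D.slopes X i v = D.weights X i

/-- The Newton polygon with the slopes `s` lies above the polygon with the slopes `w`, and they have the
same end points. -/
def IsAbove (s w : Multiset ℚ) : Prop :=
  ∃ (n : ℕ) (a b : ℕ → ℚ), Monotone a ∧ Monotone b ∧ s = (Multiset.range n).map a ∧
    w = (Multiset.range n).map b ∧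
    (∀ m ≤ n, ∑ i ∈ Finset.range m, b i ≤ ∑ i ∈ Finset.range m, a i) ∧
    ∑ i ∈ Finset.range n, a i = ∑ i ∈ Finset.range n, b i

/-- The sum of the squares. -/
def squares (s : Multiset ℚ) : ℚ := (s.map fun x => x ^ 2).sum

/-- The properties of the slopes of the smooth projective varieties in the class `Q`: for almost all
places the Newton polygon is above the Hodge polygon (Katz-Messing, Mazur, Faltings); for `X`, `Y`,
`i`, `j` there are a variety `Z` of the class and a degree `n` such that an ordinary place for `H^n(Z)`
is ordinary for `H^i(X)` and for `H^j(Y)`, with finitely many exceptions. (By the Künneth formula one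
can take a component `Z` of `X × Y` and `n = i + j` if both groups are nonzero, and `Z = X`, `n = i` or
`Z = Y`, `n = j` otherwise.) -/
structure SlopeData.IsSlope (D : SlopeData k ι) (Q : Sch k → Prop) : Prop where
  above : ∀ X, Q X → ∀ i, ∀ᶠ v in cofinite, IsAbove (D.slopes X i v) (D.weights X i)
  prod : ∀ X Y i j, Q X → Q Y → ∃ Z n, Q Z ∧ ∀ᶠ v in cofinite,
    D.Ord Z n v → D.Ord X i v ∧ D.Ord Y j v

/-- `δ` is an invariant of the separated schemes of finite type over `k` with values in the Laurent
polynomials with coefficients in the functions on the places, modulo the functions which are zero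
at almost all places. It is additive, and for the varieties `X` of the class `Q` its coefficient at
`c ≥ 0` is the sum of the squares of the Hodge-Tate weights minus the sum of the squares of the slopes of
`H^(2c)(X) ⊕ H^(2c+1)(X)`, for almost all places. -/
structure SlopeData.IsDefect (D : SlopeData k ι) (Q : Sch k → Prop) (δ : Sch k → ℤ → ι → ℚ) :
    Prop where
  additive : IsAdditive fun X c => (δ X c : Germ (cofinite : Filter ι) ℚ)
  value : ∀ X, Q X → ∀ c : ℕ, ∀ᶠ v in cofinite, δ X c v =
    (squares (D.weights X (2 * c)) - squares (D.slopes X (2 * c) v)) +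
      (squares (D.weights X (2 * c + 1)) - squares (D.slopes X (2 * c + 1) v))
  neg : ∀ X, Q X → ∀ c : ℤ, c < 0 → ∀ᶠ v in cofinite, δ X c v = 0

/-- **Q1**: for all varieties of the class `Q` and all degrees there are infinitely many ordinary
places. -/
def SlopeData.Infinite (D : SlopeData k ι) (Q : Sch k → Prop) : Prop :=
  ∀ X, Q X → ∀ i, {v | D.Ord X i v}.Infinite

/-- For every finite family of varieties of the class `Q`, of dimension at most `n`, and of degrees
there are infinitely many common ordinary places. -/
def SlopeData.Common (D : SlopeData k ι) (Q : Sch k → Prop) (n : ℕ) : Prop :=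
  ∀ L : List (Sch k × ℕ), (∀ x ∈ L, Q x.1 ∧ topologicalKrullDim x.1.left ≤ n) →
    {v | ∀ x ∈ L, D.Ord x.1 x.2 v}.Infinite

/-- For every finite family of hypersurfaces `T(x, y, z) = 1`, for trilinear forms `T` over `k` with the
property `R`, and of degrees `c` there are infinitely many common zeros `v` of the functions
`v ↦ δ (T = 1) c v`. -/
def CommonZeros (δ : Sch k → ℤ → ι → ℚ) (R : Form k → Prop) : Prop :=
  ∀ L : List (Form k × ℤ), (∀ x ∈ L, R x.1) → {v | ∀ x ∈ L, δ x.1.hyp x.2 v = 0}.Infinite

end Pool.Agent.W5h93.EX
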