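import Pool.Agent.W5h93.EX.PoleDefs
import Pool.Agent.W5h93.EX.GTC

/-!
# Poles of L-functions
-/

set_option autoImplicit false

open CategoryTheory AlgebraicGeometry Pool.Agent.Y116.UV Pool.Agent.W5h93.EV Filter Topology

universe w

namespace Pool.Agent.W5h93.EX

variable {k : Type} [Field k] {D : PoleData.{w} k} {Q : Sch k → Prop}

lemma mem_limitFuns {f : ℝ → ℂˣ} : f ∈ limitFuns ↔
    ∃ l : ℂ, l ≠ 0 ∧ Tendsto (fun u => (f u : ℂ)) (𝓝[>] 0) (𝓝 l) := by
  constructor
  · rintro ⟨l, hl⟩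
    exact ⟨l, l.ne_zero, (Units.continuous_val.tendsto l).comp hl⟩
  · rintro ⟨l, hl, h⟩
    refine ⟨Units.mk0 l hl, ?_⟩
    rw [Units.isEmbedding_val₀.tendsto_nhds_iff]
    exact h

lemma holdsAt_iff {δ : Sch k → ℤ → Growth} (hδ : D.IsDefect Q δ) {X : Sch k} (hX : Q X) (j : ℕ) :
    D.HoldsAt X j ↔ δ X j = 0 := by
  rw [hδ.value X hX j, ofMul_eq_zero, QuotientGroup.eq_one_iff, mem_limitFuns]
  refine exists_congr fun l => and_congr Iff.rfl (tendsto_congr' ?_)
  filter_upwards [self_mem_nhdsWithin] with u hu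
  have hu' : u ≠ 0 := ne_of_gt hu
  simp only [Pi.mul_apply, Pi.pow_apply, Units.val_mul, Units.val_pow_eq_pow_val, var, dif_neg hu',
    Units.val_mk0]

theorem pole_iff {δ : Sch k → ℤ → Growth} (hδ : D.IsDefect Q δ) {X : Sch k} (hX : Q X) :
    D.Holds X ↔ Vanish δ X := by
  constructor
  · intro h c
    rcases lt_or_ge c 0 with hc | hc
    · exact hδ.neg X hX c hc
    · obtain ⟨m, rfl⟩ := Int.eq_ofNat_of_zero_le hc
      exact (holdsAt_iff hδ hX m).mp (h m)
  · intro h j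
    exact (holdsAt_iff hδ hX j).mpr (h j)

/-- The conjecture is true in dimension at most one. -/
theorem pole_low (hQ : IsClass Q) (hD : D.Ends Q) : ForClass Q D.Holds 1 := by
  intro X hX hd j
  have : IrreducibleSpace X.left := hQ.irreducible X hX
  obtain ⟨d, h1, h2⟩ := exists_dim hd
  exact hD X hX d h1 j (by omega)

end Pool.Agent.W5h93.EX
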