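import Pool.Agent.W5h93.EX.SsDefs
import Pool.Agent.W5h93.EX.GTC

/-!
# Semisimplicity
-/

set_option autoImplicit false

open CategoryTheory AlgebraicGeometry Pool.Agent.Y116.UV Pool.Agent.W5h93.EV

universe u v

namespace Pool.Agent.W5h93.EX

section

variable {R : Type u} [Ring R] {M : Type v} [AddCommGroup M] [Module R M]

/-- A module of finite length is semisimple if and only if its socle has the same length. -/
theorem semisimple_iff_length (h : IsFiniteLength R M) :
    IsSemisimpleModule R M ↔ lengthDefect R M = 0 := by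
  have h1 : socle R M = ⊤ ↔ IsSemisimpleModule R M := sSup_simples_eq_top_iff_isSemisimpleModule
  have hM : Module.length R M ≠ ⊤ := Module.length_ne_top_iff.mpr h
  have h2 : Module.length R M = Module.length R (socle R M) + Module.length R (M ⧸ socle R M) :=
    Module.length_eq_add_of_exact (socle R M).subtype (socle R M).mkQ
      (Submodule.subtype_injective _) (Submodule.mkQ_surjective _)
      (LinearMap.exact_subtype_mkQ _)
  rw [← h1, lengthDefect]
  have hs : Module.length R (socle R M) ≠ ⊤ := by
    intro h3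
    rw [h3, top_add] at h2
    exact hM h2
  have hq : Module.length R (M ⧸ socle R M) ≠ ⊤ := by
    intro h3
    rw [h3, add_top] at h2
    exact hM h2
  obtain ⟨a, ha⟩ := ENat.ne_top_iff_exists.mp hs
  obtain ⟨b, hb⟩ := ENat.ne_top_iff_exists.mp hq
  rw [h2, ← ha, ← hb]
  have h4 : ((a : ℕ∞) + (b : ℕ∞)).toNat = a + b := by
    rw [← Nat.cast_add, ENat.toNat_natCast]
  rw [h4, ENat.toNat_natCast]
  constructor
  · intro h3
    have h5 : Module.length R (M ⧸ socle R M) = 0 := by
      rw [Module.length_eq_zero_iff, Submodule.Quotient.subsingleton_iff]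
      exact h3
    rw [h5] at hb
    have : b = 0 := by exact_mod_cast hb
    omega
  · intro h3
    have h5 : b = 0 := by omega
    rw [h5, Nat.cast_zero] at hb
    have h6 := Module.length_eq_zero_iff.mp hb.symm
    rwa [Submodule.Quotient.subsingleton_iff] at h6

end

variable {k : Type} [Field k] {R : Type u} [Ring R] {D : GaloisData.{u, v} k R} {Q : Sch k → Prop}

theorem ss_iff (hD : D.IsGalois Q) {ε : ℕ} {δ : Sch k → ℤ → ℤ} (hδ : D.IsDefect Q ε δ)
    {X : Sch k} (hX : Q X) : D.Semisimple ε X ↔ Vanish δ X := by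
  constructor
  · intro h c
    rcases lt_or_ge c 0 with hc | hc
    · exact hδ.neg X hX c hc
    · obtain ⟨m, rfl⟩ := Int.eq_ofNat_of_zero_le hc
      have h1 := hδ.value X hX m
      rw [h1]
      exact (semisimple_iff_length (hD.finite X hX _)).mp (h m)
  · intro h c
    have h1 := hδ.value X hX c
    rw [h c] at h1
    exact (semisimple_iff_length (hD.finite X hX _)).mpr h1.symm

/-- Even degrees in dimension at most one and odd degrees in dimension at most two. -/
theorem ss_low (hQ : IsClass Q) (hD : D.IsGalois Q) {ε : ℕ} (hε : ε ≤ 1) :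
    ForClass Q (D.Semisimple ε) (ε + 1) := by
  intro X hX hd c
  have : IrreducibleSpace X.left := hQ.irreducible X hX
  obtain ⟨d, h1, h2⟩ := exists_dim hd
  have h0 := hD.zero X hX
  have h0' := hD.dual X hX d h1 0 (by omega) h0
  have h3 := hD.one X hX
  have h5 := hD.above X hX d h1
  by_cases h6 : 2 * d < 2 * c + ε
  · exact h5 _ h6
  · rcases Nat.lt_or_ge d 1 with h7 | h7
    · have h8 : 2 * c + ε = 0 := by omega
      rw [h8]
      exact h0
    · have h3' := hD.dual X hX d h1 1 (by omega) h3
      have h8 : 2 * c + ε = 0 ∨ 2 * c + ε = 1 ∨ 2 * c + ε = 2 * d ∨ 2 * c + ε = 2 * d - 1 := by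
        omega
      rcases h8 with h8 | h8 | h8 | h8
      · rw [h8]; exact h0
      · rw [h8]; exact h3
      · rw [h8]; exact h0'
      · rw [h8]; exact h3'

end Pool.Agent.W5h93.EX
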