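import Pool.Agent.W5h93.EX.PrimeDefs

/-!
# Semisimplicity: definitions
-/

set_option autoImplicit false

open CategoryTheory AlgebraicGeometry Pool.Agent.Y116.UV Pool.Agent.W5h93.EV

universe u v

namespace Pool.Agent.W5h93.EX

/-- The cohomology groups `H^i(X)` of the schemes over `k`, modules over the ring `R` (the group algebra
`ℚ_ℓ[G_k]` of the absolute Galois group). -/
structure GaloisData (k : Type) [Field k] (R : Type u) [Ring R] where
  /-- the cohomology groups -/
  H : Sch k → ℕ → ModuleCat.{v} R

/-- The socle: the sum of the simple submodules. -/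
def socle (R : Type u) [Ring R] (M : Type v) [AddCommGroup M] [Module R M] : Submodule R M :=
  sSup {N | IsSimpleModule R N}

variable {k : Type} [Field k] {R : Type u} [Ring R]

/-- **The conjecture for `X` in the degrees of parity `ε`**: `H^(2c+ε)(X)` is semisimple for all `c`. -/
def GaloisData.Semisimple (D : GaloisData.{u, v} k R) (ε : ℕ) (X : Sch k) : Prop :=
  ∀ c : ℕ, IsSemisimpleModule R (D.H X (2 * c + ε))

/-- The length of the module minus the length of its socle. -/
noncomputable def lengthDefect (R : Type u) [Ring R] (M : Type v) [AddCommGroup M] [Module R M] : ℤ :=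
  ((Module.length R M).toNat : ℤ) - (Module.length R (socle R M)).toNat

/-- The known properties for the varieties `X` of the class `Q`: the modules `H^i(X)` have finite
length; `H^0(X)` and `H^1(X)` are semisimple (the latter is the theorem of Faltings); for `i ≤ dim X` the
module `H^(2 dim X - i)(X)` is semisimple if `H^i(X)` is (Poincare duality and hard Lefschetz); and the
modules of degree above `2 dim X` are zero. -/
structure GaloisData.IsGalois (D : GaloisData.{u, v} k R) (Q : Sch k → Prop) : Prop where
  finite : ∀ X, Q X → ∀ i, IsFiniteLength R (D.H X i)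
  zero : ∀ X, Q X → IsSemisimpleModule R (D.H X 0)
  one : ∀ X, Q X → IsSemisimpleModule R (D.H X 1)
  dual : ∀ X, Q X → ∀ d : ℕ, topologicalKrullDim X.left = d → ∀ i ≤ d,
    IsSemisimpleModule R (D.H X i) → IsSemisimpleModule R (D.H X (2 * d - i))
  above : ∀ X, Q X → ∀ d : ℕ, topologicalKrullDim X.left = d → ∀ i, 2 * d < i →
    IsSemisimpleModule R (D.H X i)

/-- `δ` is an additive invariant of the separated schemes of finite type over `k`. For the varieties
`X` of the class `Q` its coefficient at `c ≥ 0` is the length of `H^(2c+ε)(X)` minus the length of its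
socle. -/
structure GaloisData.IsDefect (D : GaloisData.{u, v} k R) (Q : Sch k → Prop) (ε : ℕ)
    (δ : Sch k → ℤ → ℤ) : Prop where
  additive : IsAdditive δ
  value : ∀ X, Q X → ∀ c : ℕ, δ X c = lengthDefect R (D.H X (2 * c + ε))
  neg : ∀ X, Q X → ∀ c : ℤ, c < 0 → δ X c = 0

end Pool.Agent.W5h93.EX
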